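import Pool.Agent.H979.FR.Stm

set_option autoImplicit false

open Finset
open scoped ENNReal NNReal

/-! The mass transport inequality from amenability. -/

namespace Pool.Agent.H909

open Pool.Agent.H979.FR

theorem outerBd_finite {V : Type} (G : SimpleGraph V) [G.LocallyFinite] (F : Finset V) :
    (outerBd G F).Finite := by
  have h : outerBd G F ⊆ ⋃ x ∈ F, G.neighborSet x := by
    rintro y ⟨-, x, hx, hxy⟩
    exact Set.mem_biUnion hx hxy
  exact (F.finite_toSet.biUnion fun x _ => Set.toFinite (G.neighborSet x)).subset h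

/-- a vertex of `F` near a vertex outside `F` is near the boundary -/
theorem near_bd {V : Type} (G : SimpleGraph V) (hG : G.Connected) (F : Finset V) {w x : V}
    {L : ℕ} (hw : w ∈ F) (hx : x ∉ F) (hL : G.dist w x ≤ L) :
    ∃ y ∈ outerBd G F, G.dist y w ≤ L := by
  classical
  obtain ⟨p, hp⟩ := hG.exists_walk_length_eq_dist w x
  have hex : ∃ k, p.getVert k ∉ F := ⟨p.length, by rwa [p.getVert_length]⟩
  set k := Nat.find hex with hk
  have h1 : p.getVert k ∉ F := Nat.find_spec hex
  have h2 : k ≤ p.length := Nat.find_min' hex (by rwa [p.getVert_length])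
  have h0 : k ≠ 0 := by
    intro h
    rw [h, p.getVert_zero] at h1
    exact h1 hw
  obtain ⟨j, hj⟩ := Nat.exists_eq_succ_of_ne_zero h0
  have h3 : p.getVert j ∈ F := by
    by_contra h
    have := Nat.find_min' hex h
    omega
  have h4 : G.Adj (p.getVert j) (p.getVert (j + 1)) := p.adj_getVert_succ (by omega)
  refine ⟨p.getVert k, ⟨h1, p.getVert j, h3, ?_⟩, ?_⟩
  · rw [hj]
    exact h4
  · rw [SimpleGraph.dist_comm]
    have h5 : G.dist w (p.getVert k) ≤ (p.take k).length := SimpleGraph.dist_le _
    have h6 : (p.take k).length ≤ p.length := by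
      rw [SimpleGraph.Walk.take_length]
      exact min_le_right _ _
    omega

theorem fr_mtp (hB : S_BALL) : S_MTP := by
  classical
  intro V G _ hG hT hA L f hfin hinv hfar z
  obtain ⟨hb1, -, hb3⟩ := hB V G hG
  have hb3 := hb3 hT
  set a := ∑' x, f x z with ha
  set c := ∑' y, f z y with hc
  have hcol : ∀ w, ∑' x, f x w = a := by
    intro w
    obtain ⟨φ, hφ⟩ := hT z w
    rw [ha, ← φ.toEquiv.tsum_eq (fun x => f x w)]
    refine tsum_congr fun x => ?_
    rw [← hinv φ x z, hφ]
    rfl
  have hrow : ∀ w, ∑' y, f w y = c := by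
    intro w
    obtain ⟨φ, hφ⟩ := hT z w
    rw [hc, ← φ.toEquiv.tsum_eq (fun y => f w y)]
    refine tsum_congr fun y => ?_
    rw [← hinv φ z y, hφ]
    rfl
  have hafin : a ≠ ⊤ := by
    rw [ha, tsum_eq_sum (s := (hb1 z L).toFinset)]
    · exact ENNReal.sum_ne_top.2 fun x _ => hfin x z
    · intro x hx
      refine hfar x z ?_
      rw [Set.Finite.mem_toFinset] at hx
      unfold ball at hx
      rw [Set.mem_ofPred_eq, not_le, SimpleGraph.dist_comm] at hx
      exact hx
  have hcfin : c ≠ ⊤ := by
    rw [hc, tsum_eq_sum (s := (hb1 z L).toFinset)]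
    · exact ENNReal.sum_ne_top.2 fun x _ => hfin z x
    · intro x hx
      refine hfar z x ?_
      rw [Set.Finite.mem_toFinset] at hx
      unfold ball at hx
      rw [Set.mem_ofPred_eq, not_le] at hx
      exact hx
  set b := (ball G z L).ncard with hb
  -- the inequality for a finite set
  have key : ∀ F : Finset V, (F.card : ℝ≥0∞) * a ≤
      F.card * c + (((outerBd G F).ncard * b : ℕ) : ℝ≥0∞) * a := by
    intro F
    set Bd := F.filter fun w => ∃ x, x ∉ F ∧ f x w ≠ 0 with hBd
    have h1 : ∀ w ∈ F, a ≤ ∑ x ∈ F, f x w + if w ∈ Bd then a else 0 := by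
      intro w hw
      by_cases hwB : w ∈ Bd
      · rw [if_pos hwB]
        exact le_add_self
      · rw [if_neg hwB, add_zero, ← hcol w]
        refine (tsum_eq_sum fun x hx => ?_).le
        by_contra h
        exact hwB (mem_filter.2 ⟨hw, x, hx, h⟩)
    have h2 : ∀ x ∈ F, ∑ w ∈ F, f x w ≤ c := fun x _ => by
      rw [← hrow x]
      exact ENNReal.sum_le_tsum F
    have h3 : Bd.card ≤ (outerBd G F).ncard * b := by
      have hfinBd := outerBd_finite G F
      have hsub : Bd ⊆ hfinBd.toFinset.biUnion fun y => (hb1 y L).toFinset := by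
        intro w hw
        obtain ⟨hwF, x, hx, hne⟩ := mem_filter.1 hw
        have hd : G.dist w x ≤ L := by
          by_contra h
          refine hne (hfar x w ?_)
          rw [SimpleGraph.dist_comm]
          omega
        obtain ⟨y, hy, hyw⟩ := near_bd G hG F hwF hx hd
        rw [mem_biUnion]
        exact ⟨y, hfinBd.mem_toFinset.2 hy, (hb1 y L).mem_toFinset.2 hyw⟩
      calc Bd.card ≤ _ := card_le_card hsub
        _ ≤ ∑ y ∈ hfinBd.toFinset, ((hb1 y L).toFinset).card := card_biUnion_le
        _ = ∑ y ∈ hfinBd.toFinset, b := by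
            refine sum_congr rfl fun y _ => ?_
            rw [← Set.ncard_eq_toFinset_card (ball G y L) (hb1 y L), hb]
            exact hb3 y z L
        _ = (outerBd G F).ncard * b := by
            rw [sum_const, smul_eq_mul, Set.ncard_eq_toFinset_card (outerBd G F) hfinBd]
    calc (F.card : ℝ≥0∞) * a = ∑ w ∈ F, a := by rw [sum_const, nsmul_eq_mul]
      _ ≤ ∑ w ∈ F, (∑ x ∈ F, f x w + if w ∈ Bd then a else 0) := sum_le_sum h1
      _ = ∑ x ∈ F, ∑ w ∈ F, f x w + ∑ w ∈ F, (if w ∈ Bd then a else 0) := by
          rw [sum_add_distrib, sum_comm]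
      _ ≤ F.card * c + (((outerBd G F).ncard * b : ℕ) : ℝ≥0∞) * a := by
          refine add_le_add ?_ ?_
          · calc _ ≤ ∑ x ∈ F, c := sum_le_sum h2
              _ = _ := by rw [sum_const, nsmul_eq_mul]
          · rw [sum_ite_mem, sum_const, nsmul_eq_mul]
            refine mul_le_mul_left ?_ a
            have : (F ∩ Bd).card ≤ (outerBd G F).ncard * b :=
              (card_le_card inter_subset_right).trans h3
            exact_mod_cast this
  -- pass to real numbers
  have hreal : ∀ ε : ℝ, 0 < ε → a.toReal ≤ c.toReal + ε * (b * a.toReal) := by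
    intro ε hε
    obtain ⟨F, hFne, hF⟩ := hA ε hε
    have hFc : (0 : ℝ) < F.card := by exact_mod_cast hFne.card_pos
    have h1 := ENNReal.toReal_mono (by
      refine ENNReal.add_ne_top.2 ⟨ENNReal.mul_ne_top (ENNReal.natCast_ne_top _) hcfin,
        ENNReal.mul_ne_top (ENNReal.natCast_ne_top _) hafin⟩) (key F)
    rw [ENNReal.toReal_add (ENNReal.mul_ne_top (ENNReal.natCast_ne_top _) hcfin)
      (ENNReal.mul_ne_top (ENNReal.natCast_ne_top _) hafin), ENNReal.toReal_mul,
      ENNReal.toReal_mul, ENNReal.toReal_mul, ENNReal.toReal_natCast, ENNReal.toReal_natCast] at h1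
    push_cast at h1
    have h2 : ((outerBd G F).ncard : ℝ) * b * a.toReal ≤ ε * F.card * (b * a.toReal) := by
      rw [mul_assoc]
      exact mul_le_mul_of_nonneg_right hF (by positivity)
    have h3 : (F.card : ℝ) * a.toReal ≤ F.card * (c.toReal + ε * (b * a.toReal)) := by
      calc (F.card : ℝ) * a.toReal ≤ _ := h1
        _ ≤ F.card * c.toReal + ε * F.card * (b * a.toReal) := by linarith
        _ = _ := by ring
    exact le_of_mul_le_mul_left h3 hFc
  have hfinal : a.toReal ≤ c.toReal := by
    refine le_of_forall_pos_le_add fun δ hδ => ?_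
    have hpos : 0 < (b : ℝ) * a.toReal + 1 := by positivity
    have h1 := hreal (δ / (b * a.toReal + 1)) (by positivity)
    have h2 : δ / (b * a.toReal + 1) * (b * a.toReal) ≤ δ := by
      rw [div_mul_eq_mul_div, div_le_iff₀ hpos]
      nlinarith
    linarith
  exact (ENNReal.toReal_le_toReal hafin hcfin).1 hfinal

end Pool.Agent.H909
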