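import Pool.Agent.H133.ZM.Stm

set_option autoImplicit false

/-!
Project ZM (helper133): the lower bound `S_LB`.
-/

namespace Pool.Agent.H909.ZMLB

open Finset Pool.Agent.H133.ZM

/-- the graph on `Fin n` with the pairs which meet `[0, a)` and the pairs inside `[0, b)` -/
def gr (n a b : ℕ) : SimpleGraph (Fin n) where
  Adj i j := i ≠ j ∧ ((i.1 < a ∨ j.1 < a) ∨ (i.1 < b ∧ j.1 < b))
  symm := ⟨fun _ _ h => ⟨h.1.symm, h.2.imp Or.symm And.symm⟩⟩
  loopless := ⟨fun _ h => h.1 rfl⟩

instance (n a b : ℕ) : DecidableRel (gr n a b).Adj := fun i j =>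
  inferInstanceAs (Decidable (i ≠ j ∧ ((i.1 < a ∨ j.1 < a) ∨ (i.1 < b ∧ j.1 < b))))

theorem card_row {n a b : ℕ} (hab : a ≤ b) (j : Fin n) :
    (univ.filter (fun i : Fin n => i < j ∧ (gr n a b).Adj i j)).card =
      if j.1 < b then j.1 else a := by
  by_cases hj : j.1 < b
  · rw [if_pos hj]
    have h1 : univ.filter (fun i : Fin n => i < j ∧ (gr n a b).Adj i j) = Iio j := by
      ext i
      rw [mem_filter, mem_Iio]
      constructor
      · exact fun h => h.2.1
      · intro h
        exact ⟨mem_univ _, h, h.ne, Or.inr ⟨lt_trans h hj, hj⟩⟩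
    rw [h1, Fin.card_Iio]
  · rw [if_neg hj]
    have haj : a ≤ j.1 := hab.trans (not_lt.1 hj)
    have h1 : univ.filter (fun i : Fin n => i < j ∧ (gr n a b).Adj i j) =
        Iio (⟨a, lt_of_le_of_lt haj j.2⟩ : Fin n) := by
      ext i
      rw [mem_filter, mem_Iio]
      constructor
      · rintro ⟨-, -, -, (h | h) | h⟩
        · exact h
        · omega
        · omega
      · intro h
        have h' : i.1 < a := h
        have h2 : i < j := by
          show i.1 < j.1
          omega
        exact ⟨mem_univ _, h2, h2.ne, Or.inl (Or.inl h')⟩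
    rw [h1, Fin.card_Iio]

theorem sum_rows {a b : ℕ} (n : ℕ) (hn : b ≤ n) :
    ∑ j ∈ range n, (if j < b then j else a) = b.choose 2 + a * (n - b) := by
  induction n, hn using Nat.le_induction with
  | base =>
    rw [Nat.sub_self, mul_zero, add_zero, Nat.choose_two_right, ← Finset.sum_range_id]
    exact sum_congr rfl fun j hj => if_pos (mem_range.1 hj)
  | succ n hn ih =>
    rw [sum_range_succ, ih, if_neg (not_lt.2 hn), Nat.succ_sub hn, Nat.mul_succ, add_assoc]

theorem eG_gr {n a b : ℕ} (hab : a ≤ b) (hb : b ≤ n) :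
    eG (gr n a b) = b.choose 2 + a * (n - b) := by
  classical
  set P : Finset (Fin n × Fin n) :=
    (univ : Finset (Fin n × Fin n)).filter (fun p => p.1 < p.2 ∧ (gr n a b).Adj p.1 p.2) with hP
  have h1 : (gr n a b).edgeSet = (fun p : Fin n × Fin n => s(p.1, p.2)) '' (P : Set (Fin n × Fin n)) := by
    ext e
    induction e using Sym2.ind with
    | _ x y =>
      rw [SimpleGraph.mem_edgeSet]
      constructor
      · intro h
        rcases lt_or_gt_of_ne h.ne with h' | h'
        · exact ⟨(x, y), by rw [hP]; simp [h', h], rfl⟩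
        · refine ⟨(y, x), ?_, Sym2.eq_swap⟩
          rw [hP]
          simp [h', h.symm]
      · rintro ⟨⟨u, v⟩, huv, he⟩
        rw [hP] at huv
        simp only [coe_filter, mem_univ, true_and, Set.mem_ofPred_eq] at huv
        have h2 : s(u, v) ∈ (gr n a b).edgeSet := huv.2
        have h3 : s(u, v) = s(x, y) := he
        rw [h3] at h2
        exact h2
  have h2 : Set.InjOn (fun p : Fin n × Fin n => s(p.1, p.2)) (P : Set (Fin n × Fin n)) := by
    rintro ⟨u, v⟩ huv ⟨u', v'⟩ huv' he
    rw [hP] at huv huv'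
    simp only [coe_filter, mem_univ, true_and, Set.mem_ofPred_eq] at huv huv'
    have h3 : s(u, v) = s(u', v') := he
    rw [Sym2.eq_iff] at h3
    rcases h3 with ⟨rfl, rfl⟩ | ⟨rfl, rfl⟩
    · rfl
    · exact absurd huv.1 (not_lt.2 huv'.1.le)
  unfold eG
  rw [h1, h2.ncard_image, Set.ncard_coe_finset]
  have h3 : P.card = ∑ j : Fin n,
      (univ.filter (fun i : Fin n => i < j ∧ (gr n a b).Adj i j)).card := by
    rw [hP, Finset.card_filter, ← Finset.univ_product_univ, Finset.sum_product_right]
    refine sum_congr rfl fun j _ => ?_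
    rw [Finset.card_filter]
  rw [h3]
  have h4 : ∀ j : Fin n, (univ.filter (fun i : Fin n => i < j ∧ (gr n a b).Adj i j)).card =
      (fun k : ℕ => if k < b then k else a) j.1 := fun j => card_row hab j
  rw [sum_congr rfl fun j _ => h4 j, Fin.sum_univ_eq_sum_range (fun k => if k < b then k else a),
    sum_rows n hb]

variable {V : Type} [DecidableEq V] {G : SimpleGraph V} {M : Finset (Sym2 V)}

theorem card_le_of_meets (hM : IsM G M) (S : Finset V) (h : ∀ e ∈ M, ∃ v ∈ e, v ∈ S) :
    M.card ≤ S.card := by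
  classical
  rcases M.eq_empty_or_nonempty with rfl | ⟨e0, he0⟩
  · simp
  obtain ⟨v0, -, -⟩ := h e0 he0
  have : Nonempty V := ⟨v0⟩
  choose! f hf using h
  refine card_le_card_of_injOn f (fun e he => (hf e he).2) ?_
  intro e he e' he' hee
  by_contra hne
  have h1 := hM.2 e he e' he' hne (f e) (hf e he).1
  apply h1
  rw [hee]
  exact (hf e' he').1

theorem two_card_le (hM : IsM G M) (S : Finset V) (h : ∀ e ∈ M, ∀ v ∈ e, v ∈ S) :
    2 * M.card ≤ S.card := by
  have h1 : M.card * 2 = (M.biUnion fun e => e.toFinset).card := by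
    rw [card_biUnion]
    · rw [sum_const_nat]
      intro e he
      exact Sym2.card_toFinset_of_not_isDiag e
        (SimpleGraph.not_isDiag_of_mem_edgeSet G (hM.1 e he))
    · intro e he f hf hef
      rw [Function.onFun, Finset.disjoint_left]
      intro v hv hv'
      rw [Sym2.mem_toFinset] at hv hv'
      exact hM.2 e he f hf hef v hv hv'
  have h2 : (M.biUnion fun e => e.toFinset) ⊆ S := by
    intro v hv
    rw [mem_biUnion] at hv
    obtain ⟨e, he, hv⟩ := hv
    exact h e he v (Sym2.mem_toFinset.1 hv)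
  have h3 := card_le_card h2
  omega

/-- the colouring: true iff the pair meets `[0, m - 1)` -/
noncomputable def cl (m n : ℕ) (e : Sym2 (Fin n)) : Bool := by
  classical exact decide (∃ v ∈ e, v.1 < m - 1)

theorem card_lt (n a : ℕ) : (univ.filter (fun i : Fin n => i.1 < a)).card ≤ a := by
  have h1 : (univ.filter (fun i : Fin n => i.1 < a)).card ≤ (range a).card :=
    card_le_card_of_injOn (fun i : Fin n => i.1)
      (fun i hi => by
        have h := (mem_filter.1 hi).2
        exact mem_coe.2 (mem_range.2 h))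
      (fun i _ j _ h => Fin.ext h)
  rwa [card_range] at h1

theorem card_mid (n a b : ℕ) : (univ.filter (fun i : Fin n => a ≤ i.1 ∧ i.1 < b)).card ≤ b - a := by
  have h1 : (univ.filter (fun i : Fin n => a ≤ i.1 ∧ i.1 < b)).card ≤ (Ico a b).card :=
    card_le_card_of_injOn (fun i : Fin n => i.1)
      (fun i hi => by
        have h := (mem_filter.1 hi).2
        exact mem_coe.2 (mem_Ico.2 h))
      (fun i _ j _ h => Fin.ext h)
  rwa [Nat.card_Ico] at h1

theorem mono_true {m n : ℕ} (hm : 2 ≤ m) {G : SimpleGraph (Fin n)} {M : Finset (Sym2 (Fin n))}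
    (hM : IsM G M) (hcard : M.card = m) (h : ∀ e ∈ M, cl m n e = true) : False := by
  have h1 := card_le_of_meets hM (univ.filter (fun i : Fin n => i.1 < m - 1)) (by
    intro e he
    have h2 := h e he
    unfold cl at h2
    rw [decide_eq_true_iff] at h2
    obtain ⟨v, hv, hv'⟩ := h2
    exact ⟨v, hv, mem_filter.2 ⟨mem_univ _, hv'⟩⟩)
  have h2 := card_lt n (m - 1)
  omega

theorem cl_false {m n : ℕ} {e : Sym2 (Fin n)} (h : cl m n e = false) :
    ∀ v ∈ e, m - 1 ≤ v.1 := by
  intro v hv
  unfold cl at h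
  rw [decide_eq_false_iff_not] at h
  by_contra hcon
  exact h ⟨v, hv, not_le.1 hcon⟩

theorem t_LB : S_LB := by
  intro m n hm hn
  have key : ∃ (a b : ℕ), TT m n = eG (gr n a b) ∧
      ((a = m - 1 ∧ b = 3 * m - 2) ∨ (a = 2 * m - 2 ∧ b = 2 * m - 2)) := by
    rcases le_total (ea m n) (eb m n) with h | h
    · refine ⟨m - 1, 3 * m - 2, ?_, Or.inl ⟨rfl, rfl⟩⟩
      unfold TT
      rw [max_eq_right h, eG_gr (by omega) hn]
      rfl
    · refine ⟨2 * m - 2, 2 * m - 2, ?_, Or.inr ⟨rfl, rfl⟩⟩
      unfold TT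
      rw [max_eq_left h, eG_gr le_rfl (by omega)]
      rfl
  obtain ⟨a, b, hTT, hcase⟩ := key
  refine ⟨gr n a b, cl m n, hTT.symm, ?_⟩
  rintro M hM hcard ⟨c, hc⟩
  cases c with
  | true => exact mono_true hm hM hcard hc
  | false =>
    rcases hcase with ⟨rfl, rfl⟩ | ⟨rfl, rfl⟩
    · have h1 := two_card_le hM (univ.filter (fun i : Fin n => m - 1 ≤ i.1 ∧ i.1 < 3 * m - 2)) (by
        intro e he
        have h2 := cl_false (hc e he)
        have h3 := hM.1 e he
        induction e using Sym2.ind with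
        | _ x y =>
          rw [SimpleGraph.mem_edgeSet] at h3
          have hx := h2 x (Sym2.mem_mk_left x y)
          have hy := h2 y (Sym2.mem_mk_right x y)
          obtain ⟨-, h4⟩ := h3
          have h5 : x.1 < 3 * m - 2 ∧ y.1 < 3 * m - 2 := by omega
          intro v hv
          rw [Sym2.mem_iff] at hv
          rcases hv with rfl | rfl
          · exact mem_filter.2 ⟨mem_univ _, hx, h5.1⟩
          · exact mem_filter.2 ⟨mem_univ _, hy, h5.2⟩)
      have h2 := card_mid n (m - 1) (3 * m - 2)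
      omega
    · have h1 := card_le_of_meets hM
        (univ.filter (fun i : Fin n => m - 1 ≤ i.1 ∧ i.1 < 2 * m - 2)) (by
        intro e he
        have h2 := cl_false (hc e he)
        have h3 := hM.1 e he
        induction e using Sym2.ind with
        | _ x y =>
          rw [SimpleGraph.mem_edgeSet] at h3
          have hx := h2 x (Sym2.mem_mk_left x y)
          have hy := h2 y (Sym2.mem_mk_right x y)
          obtain ⟨-, h4⟩ := h3
          by_cases h5 : x.1 < 2 * m - 2
          · exact ⟨x, Sym2.mem_mk_left x y, mem_filter.2 ⟨mem_univ _, hx, h5⟩⟩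
          · have h6 : y.1 < 2 * m - 2 := by omega
            exact ⟨y, Sym2.mem_mk_right x y, mem_filter.2 ⟨mem_univ _, hy, h6⟩⟩)
      have h2 := card_mid n (m - 1) (2 * m - 2)
      omega

end Pool.Agent.H909.ZMLB
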